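import Pool.Agent.Helper53.Pq.Goals

set_option autoImplicit false

/-!
# MP_705522_gt: the scalar inequality (II) (packet Pq-IIS of helper53)
-/

namespace Pool.Agent.Helper61.Pq

open MeasureTheory Set
open Pool.Agent.Helper53.Pq

/-! ### The incomplete Gaussian integral -/

theorem cont_g (b : ℝ) {T : ℝ} (hT : 0 < T) (U : ℝ) :
    ContinuousOn (fun s : ℝ => Real.exp (-(b * s ^ 2 / 2)) / s ^ 2) (Icc T U) := by
  apply ContinuousOn.div
  · fun_prop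
  · fun_prop
  · intro s hs
    have : 0 < s := hT.trans_le hs.1
    positivity

theorem Gam_le_J (b : ℝ) (hb : 1 ≤ b) (U : ℝ) :
    ∫ s in Ioc 1.9287 U, Real.exp (-(b * s ^ 2 / 2)) / s ^ 2 ≤
      Real.exp (-(b * 1.9287 ^ 2 / 2)) / (1.9287 * (b * 1.9287 ^ 2 + 2)) := by
  have hpos : 0 < Real.exp (-(b * 1.9287 ^ 2 / 2)) / (1.9287 * (b * 1.9287 ^ 2 + 2)) := by
    have : 0 < b := by linarith
    positivity
  rcases le_total U 1.9287 with h | h
  · rw [Ioc_eq_empty (not_lt.2 h)]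
    simpa using hpos.le
  · rw [← intervalIntegral.integral_of_le h]
    have hd : ∀ s ∈ uIcc (1.9287 : ℝ) U, HasDerivAt
        (fun s => -(Real.exp (-(b * s ^ 2 / 2)) / (s * (b * s ^ 2 + 2))))
        (Real.exp (-(b * s ^ 2 / 2)) * (b ^ 2 * s ^ 4 + 5 * b * s ^ 2 + 2) /
          (s ^ 2 * (b * s ^ 2 + 2) ^ 2)) s := by
      intro s hs
      rw [uIcc_of_le h] at hs
      have hs0 : 0 < s := by linarith [hs.1]
      have hb0 : 0 < b := by linarith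
      have hne : s * (b * s ^ 2 + 2) ≠ 0 := by positivity
      have h1 : HasDerivAt (fun s : ℝ => Real.exp (-(b * s ^ 2 / 2)))
          (Real.exp (-(b * s ^ 2 / 2)) * (-(b * s))) s := by
        have h0 : HasDerivAt (fun s : ℝ => -(b * s ^ 2 / 2)) (-(b * s)) s := by
          refine (((hasDerivAt_pow 2 s).const_mul b).div_const 2).neg.congr_deriv ?_
          norm_num
          ring
        exact h0.exp
      have h2 : HasDerivAt (fun s : ℝ => s * (b * s ^ 2 + 2)) (3 * b * s ^ 2 + 2) s := by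
        have h0 : HasDerivAt (fun s : ℝ => b * s ^ 2 + 2) (b * (2 * s)) s := by
          refine (((hasDerivAt_pow 2 s).const_mul b).add_const 2).congr_deriv ?_
          norm_num
        have h00 := (hasDerivAt_id' s).mul h0
        refine h00.congr_deriv ?_
        ring
      have h3 := (h1.div h2 hne).neg
      refine h3.congr_deriv ?_
      have hs1 : s ≠ 0 := hs0.ne'
      have hb1 : b * s ^ 2 + 2 ≠ 0 := by positivity
      rw [← neg_div, div_eq_div_iff (by positivity) (by positivity)]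
      ring
    have hcont : ContinuousOn (fun s : ℝ => Real.exp (-(b * s ^ 2 / 2)) *
        (b ^ 2 * s ^ 4 + 5 * b * s ^ 2 + 2) / (s ^ 2 * (b * s ^ 2 + 2) ^ 2)) (uIcc 1.9287 U) := by
      rw [uIcc_of_le h]
      apply ContinuousOn.div
      · fun_prop
      · fun_prop
      · intro s hs
        have hs0 : 0 < s := by linarith [hs.1]
        have hb0 : 0 < b := by linarith
        positivity
    have hint := intervalIntegral.integral_eq_sub_of_hasDerivAt hd hcont.intervalIntegrable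
    have hmono : ∫ s in (1.9287 : ℝ)..U, Real.exp (-(b * s ^ 2 / 2)) / s ^ 2 ≤
        ∫ s in (1.9287 : ℝ)..U, Real.exp (-(b * s ^ 2 / 2)) *
          (b ^ 2 * s ^ 4 + 5 * b * s ^ 2 + 2) / (s ^ 2 * (b * s ^ 2 + 2) ^ 2) := by
      apply intervalIntegral.integral_mono_on h
      · have := cont_g b (T := 1.9287) (by norm_num) U
        rw [← uIcc_of_le h] at this
        exact this.intervalIntegrable
      · exact hcont.intervalIntegrable
      · intro s hs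
        have hs0 : 0 < s := by linarith [hs.1]
        have hb0 : 0 < b := by linarith
        rw [div_le_div_iff₀ (by positivity) (by positivity)]
        have h2 : 2 ≤ b * s ^ 2 := by nlinarith [hs.1]
        have h3 : (b * s ^ 2 + 2) ^ 2 ≤ b ^ 2 * s ^ 4 + 5 * b * s ^ 2 + 2 := by nlinarith
        have h4 : 0 < Real.exp (-(b * s ^ 2 / 2)) := Real.exp_pos _
        have h5 : 0 < s ^ 2 := by positivity
        calc Real.exp (-(b * s ^ 2 / 2)) * (s ^ 2 * (b * s ^ 2 + 2) ^ 2)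
            = Real.exp (-(b * s ^ 2 / 2)) * s ^ 2 * (b * s ^ 2 + 2) ^ 2 := by ring
          _ ≤ Real.exp (-(b * s ^ 2 / 2)) * s ^ 2 * (b ^ 2 * s ^ 4 + 5 * b * s ^ 2 + 2) := by
            gcongr
          _ = _ := by ring
    rw [hint] at hmono
    have hU : 0 < Real.exp (-(b * U ^ 2 / 2)) / (U * (b * U ^ 2 + 2)) := by
      have hb0 : 0 < b := by linarith
      have hU0 : 0 < U := by linarith
      positivity
    linarith

theorem Gam_le_len (b : ℝ) (hb : 0 ≤ b) (U U0 : ℝ) (hU : U ≤ U0) (hT : 1.9287 ≤ U0) :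
    ∫ s in Ioc 1.9287 U, Real.exp (-(b * s ^ 2 / 2)) / s ^ 2 ≤
      (U0 - 1.9287) * (Real.exp (-(b * 1.9287 ^ 2 / 2)) / 1.9287 ^ 2) := by
  have hE : 0 < Real.exp (-(b * 1.9287 ^ 2 / 2)) / 1.9287 ^ 2 := by positivity
  rcases le_total U 1.9287 with h | h
  · rw [Ioc_eq_empty (not_lt.2 h)]
    simp only [setIntegral_empty]
    exact mul_nonneg (by linarith) hE.le
  · rw [← intervalIntegral.integral_of_le h]
    have h1 : ∫ s in (1.9287 : ℝ)..U, Real.exp (-(b * s ^ 2 / 2)) / s ^ 2 ≤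
        ∫ s in (1.9287 : ℝ)..U, Real.exp (-(b * 1.9287 ^ 2 / 2)) / 1.9287 ^ 2 := by
      apply intervalIntegral.integral_mono_on h
      · have := cont_g b (T := 1.9287) (by norm_num) U
        rw [← uIcc_of_le h] at this
        exact this.intervalIntegrable
      · simp
      · intro s hs
        have hs0 : (0 : ℝ) ≤ 1.9287 := by norm_num
        have h2 : (1.9287 : ℝ) ^ 2 ≤ s ^ 2 := by
          apply pow_le_pow_left₀ hs0 hs.1
        have h3 : Real.exp (-(b * s ^ 2 / 2)) ≤ Real.exp (-(b * 1.9287 ^ 2 / 2)) := by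
          apply Real.exp_le_exp.2
          nlinarith
        apply div_le_div₀ (Real.exp_pos _).le h3 (by norm_num) h2
    rw [intervalIntegral.integral_const, smul_eq_mul] at h1
    refine h1.trans ?_
    apply mul_le_mul_of_nonneg_right _ hE.le
    linarith

/-! ### Numerical bounds -/

theorem exp_neg_quad (x : ℝ) (hx : 0 ≤ x) : Real.exp (-x) ≤ 1 - x + x ^ 2 / 2 := by
  have h1 := Real.quadratic_le_exp_of_nonneg hx
  have h2 : Real.exp (-x) * Real.exp x = 1 := by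
    rw [← Real.exp_add]; simp
  have h3 : 0 < Real.exp (-x) := Real.exp_pos _
  have h4 : 0 < 1 + x + x ^ 2 / 2 := by positivity
  have h5 : Real.exp (-x) * (1 + x + x ^ 2 / 2) ≤ 1 := by
    calc Real.exp (-x) * (1 + x + x ^ 2 / 2) ≤ Real.exp (-x) * Real.exp x :=
        mul_le_mul_of_nonneg_left h1 h3.le
      _ = 1 := h2
  have h6 : 1 ≤ (1 - x + x ^ 2 / 2) * (1 + x + x ^ 2 / 2) := by nlinarith [sq_nonneg (x ^ 2)]
  have h7 : Real.exp (-x) * (1 + x + x ^ 2 / 2) ≤ (1 - x + x ^ 2 / 2) * (1 + x + x ^ 2 / 2) :=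
    h5.trans h6
  exact le_of_mul_le_mul_right h7 h4

theorem exp_T : Real.exp (-1.85994) ≤ 0.15569 := by
  have h1 : (6.4231 : ℝ) ≤ Real.exp 1.85994 := by
    refine le_trans ?_ (Real.sum_le_exp_of_nonneg (by norm_num : (0 : ℝ) ≤ 1.85994) 12)
    norm_num [Finset.sum_range_succ, Nat.factorial]
  rw [Real.exp_neg, inv_le_comm₀ (Real.exp_pos _) (by norm_num)]
  refine le_trans ?_ h1
  norm_num

theorem E_le (v : ℝ) (h1 : 0.0471 ≤ v) (h2 : v ≤ 0.1109) :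
    Real.exp (-((1 + v) * 1.9287 ^ 2 / 2)) ≤ 0.1543 - 0.2470 * v := by
  have ha : Real.exp (-((1 + v) * 1.9287 ^ 2 / 2)) ≤ Real.exp (-1.85994) * Real.exp (-(1.85994 * v)) := by
    rw [← Real.exp_add]
    apply Real.exp_le_exp.2
    nlinarith
  have hb := exp_neg_quad (1.85994 * v) (by nlinarith)
  have hc := exp_T
  have hd : 0 ≤ 1 - 1.85994 * v + (1.85994 * v) ^ 2 / 2 := by nlinarith
  calc Real.exp (-((1 + v) * 1.9287 ^ 2 / 2))
      ≤ Real.exp (-1.85994) * Real.exp (-(1.85994 * v)) := ha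
    _ ≤ 0.15569 * (1 - 1.85994 * v + (1.85994 * v) ^ 2 / 2) := by
      apply mul_le_mul hc hb (Real.exp_pos _).le (by norm_num)
    _ ≤ _ := by nlinarith [mul_nonneg (sub_nonneg.2 h1) (sub_nonneg.2 h2)]

theorem J_le (v : ℝ) (h1 : 0.0471 ≤ v) (h2 : v ≤ 0.1109) :
    Real.exp (-((1 + v) * 1.9287 ^ 2 / 2)) / (1.9287 * ((1 + v) * 1.9287 ^ 2 + 2)) ≤
      0.0139 - 0.0284 * v := by
  have h := E_le v h1 h2
  rw [div_le_iff₀ (by positivity)]
  refine h.trans ?_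
  nlinarith [mul_nonneg (sub_nonneg.2 h1) (sub_nonneg.2 h2)]


theorem rpow_div_le {x c : ℝ} (hx : 0 ≤ x) (hc : 0 ≤ c) (m n : ℕ) (hn : n ≠ 0)
    (h : x ^ m ≤ c ^ n) : x ^ ((m : ℝ) / n) ≤ c := by
  have h1 : x ^ ((m : ℝ) / n) = (x ^ m) ^ ((n : ℝ)⁻¹) := by
    rw [div_eq_mul_inv, Real.rpow_mul hx, Real.rpow_natCast]
  rw [h1, ← Real.pow_rpow_inv_natCast hc hn]
  exact Real.rpow_le_rpow (by positivity) h (by positivity)

/-- Bernoulli: a power below its tangent. -/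
theorem rpow_tangent {x x0 p : ℝ} (hx : 0 ≤ x) (h0 : 0 < x0) (hp0 : 0 ≤ p) (hp1 : p ≤ 1) :
    x ^ p ≤ x0 ^ p * (1 + p * (x / x0 - 1)) := by
  have h1 : x = x0 * (1 + (x / x0 - 1)) := by
    field_simp
    ring
  have h2 : -1 ≤ x / x0 - 1 := by
    have : 0 ≤ x / x0 := by positivity
    linarith
  calc x ^ p = (x0 * (1 + (x / x0 - 1))) ^ p := by rw [← h1]
    _ = x0 ^ p * (1 + (x / x0 - 1)) ^ p := Real.mul_rpow h0.le (by linarith)
    _ ≤ x0 ^ p * (1 + p * (x / x0 - 1)) := by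
      apply mul_le_mul_of_nonneg_left _ (by positivity)
      exact rpow_one_add_le_one_add_mul_self h2 hp0 hp1

/-- Monotonicity of `TT2` in `w`. -/
theorem TT_le {θ y w w1 a : ℝ} (hH0 : 0 < HH θ) (hH1 : HH θ ≤ 1) (hy0 : 0 < y) (hy1 : y ≤ 1)
    (hw0 : 0 < w) (hw : w ≤ w1) (hw1 : w1 ≤ 1)
    (ha1 : w ≤ 1 / 2 → a ≤ 1 / 2) (ha2 : 1 / 2 < w → a ≤ 1 / (4 * w)) :
    TT2 θ y w ≤ (y * w1) ^ a * HH θ ^ (1 / w1 - 1) := by
  have hb0 : 0 < y * w := by positivity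
  have hb1 : y * w ≤ y * w1 := by gcongr
  have hb2 : y * w1 ≤ 1 := by nlinarith
  have hH : HH θ ^ (1 / w - 1) ≤ HH θ ^ (1 / w1 - 1) := by
    apply Real.rpow_le_rpow_of_exponent_ge hH0 hH1
    have : 1 / w1 ≤ 1 / w := one_div_le_one_div_of_le hw0 hw
    linarith
  have key : ∀ α : ℝ, 0 ≤ α → a ≤ α → (y * w) ^ α ≤ (y * w1) ^ a := by
    intro α hα haα
    calc (y * w) ^ α ≤ (y * w1) ^ α := Real.rpow_le_rpow hb0.le hb1 hα
      _ ≤ (y * w1) ^ a := Real.rpow_le_rpow_of_exponent_ge (hb0.trans_le hb1) hb2 haα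
  unfold TT2
  split_ifs with h
  · rw [Real.sqrt_eq_rpow]
    exact mul_le_mul (key _ (by norm_num) (ha1 h)) hH (Real.rpow_nonneg hH0.le _)
      (Real.rpow_nonneg (hb0.le.trans hb1) _)
  · rw [not_le] at h
    exact mul_le_mul (key _ (by positivity) (ha2 h)) hH (Real.rpow_nonneg hH0.le _)
      (Real.rpow_nonneg (hb0.le.trans hb1) _)

theorem sqrt_y {y : ℝ} (hy : 0 ≤ y) : √y ≤ 0.542327 * (y + 0.85) := by
  rw [Real.sqrt_le_left (by positivity)]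
  nlinarith [sq_nonneg (y - 0.85)]

theorem sqrt_1y {y : ℝ} (hy : 0 ≤ y) : √(1 + y) ≤ 0.3676074 * (y + 2.85) := by
  rw [Real.sqrt_le_left (by positivity)]
  nlinarith [sq_nonneg (y - 0.85)]

theorem affine_pos {A B x a b : ℝ} (h1 : 0 < A + B * a) (h2 : 0 < A + B * b) (ha : a ≤ x)
    (hb : x ≤ b) : 0 < A + B * x := by
  rcases le_total 0 B with h | h
  · nlinarith
  · nlinarith

/-- The lower bound of `v`. -/
noncomputable def vlo (θ : ℝ) : ℝ := 0.01207 - 0.1566 * θ + 2.2033 * θ ^ 2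

/-- The upper bound of `2^θ`. -/
noncomputable def thi (θ : ℝ) : ℝ := 1.00055 + 0.6853 * θ + 0.2776 * θ ^ 2

noncomputable def p1 (θ : ℝ) : ℝ := 0.286 - 1.1544 * θ + 1.1367 * θ ^ 2

noncomputable def p2 (θ : ℝ) : ℝ := 0.29062 - 1.1968 * θ + 1.285 * θ ^ 2

theorem E2lo_ge {θ : ℝ} (h1 : 1 / 6 ≤ θ) (h2 : θ ≤ 1 / 4) (hv1 : vlo θ ≤ vv θ)
    (hv2 : vv θ ≤ 0.1109) (ht : (2 : ℝ) ^ θ ≤ thi θ) : p1 θ ≤ E2lo θ := by
  have hpi1 := Real.pi_gt_d6
  have hpi2 := Real.pi_lt_d6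
  have ht0 : 0 < (2 : ℝ) ^ θ := by positivity
  have hvl : 0.0471 ≤ vlo θ := by unfold vlo; nlinarith
  unfold E2lo
  have e1 : Real.pi / 2 * (2 : ℝ) ^ θ ≤ 1.5707965 * thi θ := by
    apply mul_le_mul _ ht ht0.le (by norm_num)
    linarith
  have e2 : 0.785398 * vv θ ≤ Real.pi / 4 * vv θ := by
    apply mul_le_mul_of_nonneg_right _ (by linarith)
    linarith
  have e3 : 0.785398 * vlo θ - 0.1716 * vlo θ ^ 2 ≤ 0.785398 * vv θ - 0.1716 * vv θ ^ 2 := by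
    nlinarith
  have e4 : vlo θ ^ 2 ≤ 0.158 * vlo θ - 0.00522339 := by nlinarith
  have e5 : p1 θ ≤ 1.85176 - 1.5707965 * thi θ + 0.785398 * vlo θ - 0.1716 * vlo θ ^ 2 := by
    unfold p1 thi vlo
    nlinarith [mul_nonneg (sub_nonneg.2 h1) (sub_nonneg.2 h2),
      mul_nonneg (mul_nonneg (sub_nonneg.2 h1) (sub_nonneg.2 h2)) (sub_nonneg.2 h1),
      mul_nonneg (mul_nonneg (sub_nonneg.2 h1) (sub_nonneg.2 h2)) (sub_nonneg.2 h2),
      mul_nonneg (mul_nonneg (sub_nonneg.2 h1) (sub_nonneg.2 h2))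
        (mul_nonneg (sub_nonneg.2 h1) (sub_nonneg.2 h2))]
  linarith

theorem E2hi_le {θ : ℝ} (h1 : 1 / 6 ≤ θ) (h2 : θ ≤ 1 / 4) (hv1 : 0.0471 ≤ vv θ)
    (hv2 : vv θ ≤ vlo θ + 0.00011)
    (ht : 1.00052 + 0.6853 * θ + 0.2776 * θ ^ 2 ≤ (2 : ℝ) ^ θ) : E2hi θ ≤ p2 θ := by
  have hpi1 := Real.pi_gt_d6
  have hpi2 := Real.pi_lt_d6
  have ht0 : 0 < (2 : ℝ) ^ θ := by positivity
  unfold E2hi
  have e1 : 1.570796 * (1.00052 + 0.6853 * θ + 0.2776 * θ ^ 2) ≤ Real.pi / 2 * (2 : ℝ) ^ θ := by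
    apply mul_le_mul _ ht (by nlinarith) (by linarith)
    linarith
  have e2 : Real.pi / 4 * vv θ ≤ 0.78539825 * vv θ := by
    apply mul_le_mul_of_nonneg_right _ (by linarith)
    linarith
  have e3 : 0.78539825 * vv θ - 0.0102 * vv θ ^ 2 ≤ 0.78539825 * (vlo θ + 0.00011) -
      0.0102 * (vlo θ + 0.00011) ^ 2 := by
    have : vlo θ ≤ 0.1109 := by unfold vlo; nlinarith
    nlinarith
  have e5 : 1.8528 - 1.570796 * (1.00052 + 0.6853 * θ + 0.2776 * θ ^ 2) +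
      0.78539825 * (vlo θ + 0.00011) - 0.0102 * (vlo θ + 0.00011) ^ 2 ≤ p2 θ := by
    unfold p2 vlo
    nlinarith [mul_nonneg (sub_nonneg.2 h1) (sub_nonneg.2 h2),
      mul_nonneg (mul_nonneg (sub_nonneg.2 h1) (sub_nonneg.2 h2)) (sub_nonneg.2 h1),
      mul_nonneg (mul_nonneg (sub_nonneg.2 h1) (sub_nonneg.2 h2)) (sub_nonneg.2 h2),
      mul_nonneg (mul_nonneg (sub_nonneg.2 h1) (sub_nonneg.2 h2))
        (mul_nonneg (sub_nonneg.2 h1) (sub_nonneg.2 h2))]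
  linarith

/-- The lower bound of the difference of the two sides of (II). -/
noncomputable def Phi (w0 c a m0 m1 g0 g1 θ y e : ℝ) : ℝ :=
  (1 - y) * (1.3695 + vlo θ / 2 - 0.1332 * (0.158 * vlo θ - 0.00522)) +
    y * (e - 0.0314 + 0.0195 * vlo θ) +
    (1.570796 * y - 1.5707965 * 0.7071068 * 0.3676074 * (y + 2.85)) * thi θ +
    w0 * (0.0233 - 0.01937 * vlo θ) * (1.5 * y - 0.5625) - 0.00007 -
    0.542327 * (y + 0.85) * ((1.1835 - 2.2 * θ) * (g0 - g1 * vlo θ)) -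
    c * (1 + a * (y / 0.85 - 1)) * (m0 + m1 * (1.1835 - 2.2 * θ)) * e

theorem Phi_pos {w0 c a m0 m1 g0 g1 θ y e : ℝ}
    (h1 : 0 < Phi w0 c a m0 m1 g0 g1 θ 0.414 (p1 θ))
    (h2 : 0 < Phi w0 c a m0 m1 g0 g1 θ 0.414 (p2 θ))
    (h3 : 0 < Phi w0 c a m0 m1 g0 g1 θ 1 (p1 θ))
    (h4 : 0 < Phi w0 c a m0 m1 g0 g1 θ 1 (p2 θ))
    (hy1 : 0.414 ≤ y) (hy2 : y ≤ 1) (he1 : p1 θ ≤ e) (he2 : e ≤ p2 θ) :
    0 < Phi w0 c a m0 m1 g0 g1 θ y e := by
  have hA : ∀ Y x : ℝ, Phi w0 c a m0 m1 g0 g1 θ Y x = Phi w0 c a m0 m1 g0 g1 θ Y 0 +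
      (Y - c * (1 + a * (Y / 0.85 - 1)) * (m0 + m1 * (1.1835 - 2.2 * θ))) * x := by
    intro Y x
    unfold Phi
    ring
  have hB : ∀ x : ℝ, ∃ P Q : ℝ, ∀ Y, Phi w0 c a m0 m1 g0 g1 θ Y x = P + Q * Y := by
    intro x
    refine ⟨Phi w0 c a m0 m1 g0 g1 θ 0 x, Phi w0 c a m0 m1 g0 g1 θ 1 x -
      Phi w0 c a m0 m1 g0 g1 θ 0 x, fun Y => ?_⟩
    unfold Phi
    ring
  have h5 : 0 < Phi w0 c a m0 m1 g0 g1 θ y (p1 θ) := by
    obtain ⟨P, Q, hPQ⟩ := hB (p1 θ)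
    rw [hPQ] at h1 h3 ⊢
    exact affine_pos h1 h3 hy1 hy2
  have h6 : 0 < Phi w0 c a m0 m1 g0 g1 θ y (p2 θ) := by
    obtain ⟨P, Q, hPQ⟩ := hB (p2 θ)
    rw [hPQ] at h2 h4 ⊢
    exact affine_pos h2 h4 hy1 hy2
  rw [hA] at h5 h6 ⊢
  exact affine_pos h5 h6 he1 he2


theorem ct_ge {θ k : ℝ} (h1 : 0.0471 ≤ vv θ) (h2 : vv θ ≤ 0.1109)
    (hk : 0.2813 - 0.2375 * vv θ ≤ k) : 0.0233 - 0.01937 * vv θ ≤ ct θ * k := by
  have hc : 0 ≤ ct θ := by
    unfold ct cA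
    have : 0 ≤ 0.3276 - 0.525 * vv θ := by linarith
    positivity
  have h3 : ct θ * (0.2813 - 0.2375 * vv θ) ≤ ct θ * k := mul_le_mul_of_nonneg_left hk hc
  refine le_trans ?_ h3
  unfold ct cA
  nlinarith [mul_nonneg (sub_nonneg.2 h1) (sub_nonneg.2 h2),
    mul_nonneg (mul_nonneg (sub_nonneg.2 h1) (sub_nonneg.2 h2)) (sub_nonneg.2 h1),
    mul_nonneg (mul_nonneg (sub_nonneg.2 h1) (sub_nonneg.2 h2)) (sub_nonneg.2 h2),
    mul_nonneg (mul_nonneg (sub_nonneg.2 h1) (sub_nonneg.2 h2))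
      (mul_nonneg (sub_nonneg.2 h1) (sub_nonneg.2 h2))]

theorem two_rpow_le {θ : ℝ} : (2 : ℝ) ^ (θ - 1 / 2) ≤ (2 : ℝ) ^ θ * 0.7071068 := by
  rw [Real.rpow_sub (by norm_num), ← Real.sqrt_eq_rpow, div_eq_mul_inv]
  apply mul_le_mul_of_nonneg_left _ (by positivity)
  rw [inv_le_comm₀ (by positivity) (by norm_num)]
  apply Real.le_sqrt_of_sq_le
  norm_num

theorem reduce {θ y w q0 g1 k e w0 c a m0 m1 G0 G1 : ℝ} (hθ2 : θ ≤ 1 / 4)
    (hv1 : vlo θ ≤ vv θ) (hv0 : 0.0471 ≤ vv θ) (hv2 : vv θ ≤ 0.1109)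
    (ht : (2 : ℝ) ^ θ ≤ thi θ) (hy1 : 0.414 ≤ y) (hy2 : y ≤ 1)
    (hq : 1.3695 + vv θ / 2 - 0.1332 * vv θ ^ 2 ≤ q0) (hg : g1 ≤ 0.0314 - 0.0195 * vv θ)
    (hk : 0.2813 - 0.2375 * vv θ ≤ k) (he0 : 0 ≤ e) (hw0 : 0 ≤ w0) (hw0' : w0 ≤ 0.63)
    (hw : w0 ≤ w) (hG1 : 0 ≤ G1)
    (hGam : Gam (1 + vv θ) w ≤ G0 - G1 * vv θ)
    (hTT : TT2 θ y w ≤ c * (1 + a * (y / 0.85 - 1)) * (m0 + m1 * (1.1835 - 2.2 * θ)))
    (hPhi : 0 < Phi w0 c a m0 m1 G0 G1 θ y e) :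
    Real.pi / 2 * (2 : ℝ) ^ (θ - 1 / 2) * √(1 + y) <
    (1 - y) * q0 + y * (Real.pi / 2 * (2 : ℝ) ^ θ + e - g1) + ct θ * y ^ 2 * k * w - 0.00007 -
      √y * HH θ * Gam (1 + vv θ) w - TT2 θ y w * e := by
  have hpi1 := Real.pi_gt_d6
  have hpi2 := Real.pi_lt_d6
  have hy0 : 0 ≤ y := by linarith
  set v := vv θ with hv
  set τ := (2 : ℝ) ^ θ with hτ
  have hτ0 : 0 < τ := by positivity
  have hH : HH θ = 1.1835 - 2.2 * θ := rfl
  have hH0 : 0 < 1.1835 - 2.2 * θ := by linarith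
  -- the left side
  have hL : Real.pi / 2 * (2 : ℝ) ^ (θ - 1 / 2) * √(1 + y) ≤
      1.5707965 * (τ * 0.7071068) * (0.3676074 * (y + 2.85)) := by
    apply mul_le_mul _ (sqrt_1y hy0) (Real.sqrt_nonneg _) (by positivity)
    apply mul_le_mul _ two_rpow_le (by positivity) (by norm_num)
    linarith
  have hT1 : (1 - y) * (1.3695 + v / 2 - 0.1332 * (0.158 * v - 0.00522)) ≤ (1 - y) * q0 := by
    apply mul_le_mul_of_nonneg_left _ (by linarith)
    have : v ^ 2 ≤ 0.158 * v - 0.00522 := by nlinarith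
    linarith
  have hT2 : y * (1.570796 * τ + e - (0.0314 - 0.0195 * v)) ≤ y * (Real.pi / 2 * τ + e - g1) := by
    apply mul_le_mul_of_nonneg_left _ hy0
    have : 1.570796 * τ ≤ Real.pi / 2 * τ := by
      apply mul_le_mul_of_nonneg_right _ hτ0.le
      linarith
    linarith
  have hT3 : w0 * (0.0233 - 0.01937 * v) * (1.5 * y - 0.5625) ≤ ct θ * y ^ 2 * k * w := by
    have h1 := ct_ge hv0 hv2 hk
    have h2 : 0 ≤ 0.0233 - 0.01937 * v := by linarith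
    have h3 : 1.5 * y - 0.5625 ≤ y ^ 2 := by nlinarith [sq_nonneg (y - 0.75)]
    calc w0 * (0.0233 - 0.01937 * v) * (1.5 * y - 0.5625)
        ≤ w0 * (0.0233 - 0.01937 * v) * y ^ 2 := by
          apply mul_le_mul_of_nonneg_left h3 (by positivity)
      _ ≤ w * (ct θ * k) * y ^ 2 := by
          apply mul_le_mul_of_nonneg_right _ (by positivity)
          exact mul_le_mul hw h1 h2 (by linarith)
      _ = _ := by ring
  have hT4 : √y * HH θ * Gam (1 + v) w ≤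
      0.542327 * (y + 0.85) * ((1.1835 - 2.2 * θ) * (G0 - G1 * v)) := by
    rw [hH, mul_assoc]
    apply mul_le_mul (sqrt_y hy0) _ _ (by positivity)
    · exact mul_le_mul_of_nonneg_left hGam hH0.le
    · apply mul_nonneg hH0.le
      unfold Gam
      apply setIntegral_nonneg measurableSet_Ioc
      intro s _
      positivity
  have hT5 : TT2 θ y w * e ≤ c * (1 + a * (y / 0.85 - 1)) * (m0 + m1 * (1.1835 - 2.2 * θ)) * e :=
    mul_le_mul_of_nonneg_right hTT he0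
  -- monotonicity
  have hV : 0 ≤ ((1 - y) * (1 / 2 - 0.1332 * 0.158) + 0.0195 * y - w0 * 0.01937 * (1.5 * y - 0.5625) +
      0.542327 * (y + 0.85) * ((1.1835 - 2.2 * θ) * G1)) * (v - vlo θ) := by
    apply mul_nonneg _ (by linarith)
    have h1 : 0 ≤ 0.542327 * (y + 0.85) * ((1.1835 - 2.2 * θ) * G1) := by positivity
    have h2 : w0 * 0.01937 * (1.5 * y - 0.5625) ≤ 0.0123 * (1.5 * y - 0.5625) := by
      apply mul_le_mul_of_nonneg_right _ (by linarith)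
      linarith
    linarith
  have hT : 0 ≤ (1.570796 * y - 1.5707965 * 0.7071068 * 0.3676074 * (y + 2.85)) * (τ - thi θ) := by
    apply mul_nonneg_of_nonpos_of_nonpos _ (by linarith)
    linarith
  unfold Phi at hPhi
  linarith


/-- The four corner inequalities. -/
def Corners (w0 c a m0 m1 g0 g1 θ : ℝ) : Prop :=
  0 < Phi w0 c a m0 m1 g0 g1 θ 0.414 (p1 θ) ∧ 0 < Phi w0 c a m0 m1 g0 g1 θ 0.414 (p2 θ) ∧
  0 < Phi w0 c a m0 m1 g0 g1 θ 1 (p1 θ) ∧ 0 < Phi w0 c a m0 m1 g0 g1 θ 1 (p2 θ)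

theorem corners0 {θ : ℝ} (h1 : 1 / 6 ≤ θ) (h2 : θ ≤ 1 / 4) :
    Corners 0 (0.5455 * 0.7186 * 0.68) (1 / 2) (-0.9590) 2.8986 0.0139 0.0284 θ := by
  have hs := mul_nonneg (sub_nonneg.2 h1) (sub_nonneg.2 h2)
  refine ⟨?_, ?_, ?_, ?_⟩ <;> unfold Phi vlo thi
  · unfold p1
    nlinarith [mul_nonneg hs (sub_nonneg.2 h1), mul_nonneg hs (sub_nonneg.2 h2)]
  · unfold p2
    nlinarith [mul_nonneg hs (sub_nonneg.2 h1), mul_nonneg hs (sub_nonneg.2 h2)]
  · unfold p1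
    nlinarith [mul_nonneg hs (sub_nonneg.2 h1), mul_nonneg hs (sub_nonneg.2 h2)]
  · unfold p2
    nlinarith [mul_nonneg hs (sub_nonneg.2 h1), mul_nonneg hs (sub_nonneg.2 h2)]

theorem corners1 {θ : ℝ} (h1 : 1 / 6 ≤ θ) (h2 : θ ≤ 1 / 4) :
    Corners 0.35 0.652 (1 / 2) 0 1 0.0139 0.0284 θ := by
  have hs := mul_nonneg (sub_nonneg.2 h1) (sub_nonneg.2 h2)
  refine ⟨?_, ?_, ?_, ?_⟩ <;> unfold Phi vlo thi
  · unfold p1
    nlinarith [mul_nonneg hs (sub_nonneg.2 h1), mul_nonneg hs (sub_nonneg.2 h2)]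
  · unfold p2
    nlinarith [mul_nonneg hs (sub_nonneg.2 h1), mul_nonneg hs (sub_nonneg.2 h2)]
  · unfold p1
    nlinarith [mul_nonneg hs (sub_nonneg.2 h1), mul_nonneg hs (sub_nonneg.2 h2)]
  · unfold p2
    nlinarith [mul_nonneg hs (sub_nonneg.2 h1), mul_nonneg hs (sub_nonneg.2 h2)]

theorem corners2 {θ : ℝ} (h1 : 1 / 6 ≤ θ) (h2 : θ ≤ 1 / 4) :
    Corners 0.5 (0.7078 * 0.7294) (5 / 11) (2 / 11) (9 / 11 / 0.68) (0.0788 * 0.1543) (0.0788 * 0.2470) θ := by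
  have hs := mul_nonneg (sub_nonneg.2 h1) (sub_nonneg.2 h2)
  refine ⟨?_, ?_, ?_, ?_⟩ <;> unfold Phi vlo thi
  · unfold p1
    nlinarith [mul_nonneg hs (sub_nonneg.2 h1), mul_nonneg hs (sub_nonneg.2 h2)]
  · unfold p2
    nlinarith [mul_nonneg hs (sub_nonneg.2 h1), mul_nonneg hs (sub_nonneg.2 h2)]
  · unfold p1
    nlinarith [mul_nonneg hs (sub_nonneg.2 h1), mul_nonneg hs (sub_nonneg.2 h2)]
  · unfold p2
    nlinarith [mul_nonneg hs (sub_nonneg.2 h1), mul_nonneg hs (sub_nonneg.2 h2)]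

theorem corners3 {θ : ℝ} (h1 : 1 / 6 ≤ θ) (h2 : θ ≤ 1 / 4) :
    Corners 0.55 (0.7554 * 0.7733) (5 / 12) (1 / 3) (2 / 3 / 0.68) (0.0510 * 0.1543) (0.0510 * 0.2470) θ := by
  have hs := mul_nonneg (sub_nonneg.2 h1) (sub_nonneg.2 h2)
  refine ⟨?_, ?_, ?_, ?_⟩ <;> unfold Phi vlo thi
  · unfold p1
    nlinarith [mul_nonneg hs (sub_nonneg.2 h1), mul_nonneg hs (sub_nonneg.2 h2)]
  · unfold p2
    nlinarith [mul_nonneg hs (sub_nonneg.2 h1), mul_nonneg hs (sub_nonneg.2 h2)]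
  · unfold p1
    nlinarith [mul_nonneg hs (sub_nonneg.2 h1), mul_nonneg hs (sub_nonneg.2 h2)]
  · unfold p2
    nlinarith [mul_nonneg hs (sub_nonneg.2 h1), mul_nonneg hs (sub_nonneg.2 h2)]

theorem corners4 {θ : ℝ} (h1 : 1 / 6 ≤ θ) (h2 : θ ≤ 1 / 4) :
    Corners 0.6 (0.7805 * 0.79735) (25 / 63) (26 / 63) (37 / 63 / 0.68) (0.0267 * 0.1543) (0.0267 * 0.2470) θ := by
  have hs := mul_nonneg (sub_nonneg.2 h1) (sub_nonneg.2 h2)
  refine ⟨?_, ?_, ?_, ?_⟩ <;> unfold Phi vlo thi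
  · unfold p1
    nlinarith [mul_nonneg hs (sub_nonneg.2 h1), mul_nonneg hs (sub_nonneg.2 h2)]
  · unfold p2
    nlinarith [mul_nonneg hs (sub_nonneg.2 h1), mul_nonneg hs (sub_nonneg.2 h2)]
  · unfold p1
    nlinarith [mul_nonneg hs (sub_nonneg.2 h1), mul_nonneg hs (sub_nonneg.2 h2)]
  · unfold p2
    nlinarith [mul_nonneg hs (sub_nonneg.2 h1), mul_nonneg hs (sub_nonneg.2 h2)]

theorem corners5 {θ : ℝ} (h1 : 1 / 6 ≤ θ) (h2 : θ ≤ 1 / 4) :
    Corners 0.63 (0.79598 * 0.8125) (5 / 13) (6 / 13) (7 / 13 / 0.68) (0.0136 * 0.1543) (0.0136 * 0.2470) θ := by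
  have hs := mul_nonneg (sub_nonneg.2 h1) (sub_nonneg.2 h2)
  refine ⟨?_, ?_, ?_, ?_⟩ <;> unfold Phi vlo thi
  · unfold p1
    nlinarith [mul_nonneg hs (sub_nonneg.2 h1), mul_nonneg hs (sub_nonneg.2 h2)]
  · unfold p2
    nlinarith [mul_nonneg hs (sub_nonneg.2 h1), mul_nonneg hs (sub_nonneg.2 h2)]
  · unfold p1
    nlinarith [mul_nonneg hs (sub_nonneg.2 h1), mul_nonneg hs (sub_nonneg.2 h2)]
  · unfold p2
    nlinarith [mul_nonneg hs (sub_nonneg.2 h1), mul_nonneg hs (sub_nonneg.2 h2)]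

/-- Upper bound of `TT2` by the product of two tangents. -/
theorem TT_lin {θ y w w1 a p A P : ℝ} (hH0 : 0 < HH θ) (hH1 : HH θ ≤ 1) (hy0 : 0 < y)
    (hy1 : y ≤ 1) (hw0 : 0 < w) (hw : w ≤ w1) (hw1 : w1 ≤ 1) (ha0 : 0 ≤ a) (ha : a ≤ 1)
    (ha1 : w ≤ 1 / 2 → a ≤ 1 / 2) (ha2 : 1 / 2 < w → a ≤ 1 / (4 * w))
    (hp : 1 / w1 - 1 = p) (hp0 : 0 ≤ p) (hp1 : p ≤ 1)
    (hA : (0.85 * w1) ^ a ≤ A) (hP : (0.68 : ℝ) ^ p ≤ P) (hy2 : 0 ≤ 1 + a * (y / 0.85 - 1))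
    (hH2 : 0 ≤ 1 + p * (HH θ / 0.68 - 1)) :
    TT2 θ y w ≤ A * P * (1 + a * (y / 0.85 - 1)) * (1 + p * (HH θ / 0.68 - 1)) := by
  have hw10 : 0 < w1 := hw0.trans_le hw
  have h1 := TT_le hH0 hH1 hy0 hy1 hw0 hw hw1 ha1 ha2
  have h2 : (y * w1) ^ a ≤ A * (1 + a * (y / 0.85 - 1)) := by
    rw [Real.mul_rpow hy0.le hw10.le]
    have h3 := rpow_tangent (x := y) (x0 := 0.85) hy0.le (by norm_num) ha0 ha
    calc y ^ a * w1 ^ a ≤ (0.85 ^ a * (1 + a * (y / 0.85 - 1))) * w1 ^ a := by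
          apply mul_le_mul_of_nonneg_right h3 (by positivity)
      _ = (0.85 * w1) ^ a * (1 + a * (y / 0.85 - 1)) := by
          rw [Real.mul_rpow (by norm_num) hw10.le]
          ring
      _ ≤ A * (1 + a * (y / 0.85 - 1)) := mul_le_mul_of_nonneg_right hA hy2
  have h4 : HH θ ^ (1 / w1 - 1) ≤ P * (1 + p * (HH θ / 0.68 - 1)) := by
    rw [hp]
    have h5 := rpow_tangent (x := HH θ) (x0 := 0.68) hH0.le (by norm_num) hp0 hp1
    exact h5.trans (mul_le_mul_of_nonneg_right hP hH2)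
  have hA0 : 0 ≤ A := le_trans (by positivity) hA
  calc TT2 θ y w ≤ (y * w1) ^ a * HH θ ^ (1 / w1 - 1) := h1
    _ ≤ (A * (1 + a * (y / 0.85 - 1))) * (P * (1 + p * (HH θ / 0.68 - 1))) := by
      apply mul_le_mul h2 h4 (by positivity) (by positivity)
    _ = _ := by ring

theorem Gam_low {v w : ℝ} (h1 : 0.0471 ≤ v) (h2 : v ≤ 0.1109) :
    Gam (1 + v) w ≤ 0.0139 - 0.0284 * v := by
  unfold Gam
  exact (Gam_le_J (1 + v) (by linarith) _).trans (J_le v h1 h2)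

theorem Gam_high {v w r κ : ℝ} (h1 : 0.0471 ≤ v) (h2 : v ≤ 0.1109) (hr : 0 < r)
    (hw : r ^ 2 ≤ w) (hr1 : 1.9287 ≤ 3.141593 / (2 * r))
    (hκ : (3.141593 / (2 * r) - 1.9287) / 1.9287 ^ 2 ≤ κ) :
    Gam (1 + v) w ≤ κ * 0.1543 - κ * 0.2470 * v := by
  unfold Gam
  have hpi2 := Real.pi_lt_d6
  have hrw : r ≤ √w := Real.le_sqrt_of_sq_le hw
  have hU : Real.pi / (2 * √w) ≤ 3.141593 / (2 * r) := by
    apply div_le_div₀ (by norm_num) hpi2.le (by positivity)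
    linarith
  refine (Gam_le_len (1 + v) (by linarith) _ _ hU hr1).trans ?_
  have hE := E_le v h1 h2
  have hE0 : 0 < Real.exp (-((1 + v) * 1.9287 ^ 2 / 2)) := Real.exp_pos _
  calc (3.141593 / (2 * r) - 1.9287) * (Real.exp (-((1 + v) * 1.9287 ^ 2 / 2)) / 1.9287 ^ 2)
      = (3.141593 / (2 * r) - 1.9287) / 1.9287 ^ 2 * Real.exp (-((1 + v) * 1.9287 ^ 2 / 2)) := by
        ring
    _ ≤ κ * (0.1543 - 0.2470 * v) := by
        apply mul_le_mul hκ hE hE0.le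
        refine le_trans ?_ hκ
        apply div_nonneg (by linarith) (by norm_num)
    _ = _ := by ring

theorem quadH {x : ℝ} (h9 : 0.6335 ≤ x) (h10 : x ≤ 0.8169) :
    x * (0.7186 * (1 + 6 / 7 * (x / 0.68 - 1))) ≤ 0.7186 * 0.68 * (-0.9590 + 2.8986 * x) := by
  have h := mul_nonneg (sub_nonneg.2 h9) (sub_nonneg.2 h10)
  have h2 : x / 0.68 = x * (25 / 17) := by ring
  rw [h2]
  nlinarith [h]

theorem GIIsc_holds : GIIsc := by
  intro hNum θ hθ1 hθ2 y w q0 g1 k e hy1 hy2 hw0 hw1 hq hg hk he1 he2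
  obtain ⟨hv1, hv2, ht1, ht2, -, -⟩ := hNum.1 θ hθ1 hθ2
  have hvl : vlo θ ≤ vv θ := by unfold vlo; linarith
  have hvh : vv θ ≤ vlo θ + 0.00011 := by unfold vlo; linarith
  have hv0 : 0.0471 ≤ vv θ := by
    refine le_trans ?_ hv1
    nlinarith
  have hv3 : vv θ ≤ 0.1109 := by
    refine hv2.trans ?_
    nlinarith
  have hth : (2 : ℝ) ^ θ ≤ thi θ := by unfold thi; linarith
  have hp1 := (E2lo_ge hθ1 hθ2 hvl hv3 hth).trans he1
  have hp2 := he2.trans (E2hi_le hθ1 hθ2 hv0 hvh ht1)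
  have he0 : 0 ≤ e := by
    refine le_trans ?_ hp1
    unfold p1
    nlinarith
  have hH : HH θ = 1.1835 - 2.2 * θ := rfl
  have hH0 : 0 < HH θ := by rw [hH]; linarith
  have hH1 : HH θ ≤ 1 := by rw [hH]; linarith
  have hy0 : 0 < y := by linarith
  have hyt : ∀ a : ℝ, 0 ≤ a → a ≤ 1 → 0 ≤ 1 + a * (y / 0.85 - 1) := by
    intro a ha0 ha1
    have : 0 ≤ y / 0.85 := by positivity
    nlinarith
  have hHt : ∀ a : ℝ, 0 ≤ a → a ≤ 1 → 0 ≤ 1 + a * (HH θ / 0.68 - 1) := by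
    intro a ha0 ha1
    have : 0 ≤ HH θ / 0.68 := by positivity
    nlinarith
  have hpow : ∀ (x c : ℝ) (m n : ℕ) (r : ℝ), 0 ≤ x → 0 ≤ c → n ≠ 0 → r = (m : ℝ) / n →
      x ^ m ≤ c ^ n → x ^ r ≤ c := by
    intro x c m n r hx hc hn hr h
    rw [hr]
    exact rpow_div_le hx hc m n hn h
  rcases le_or_gt w 0.35 with hw2 | hw2
  · -- w ≤ 0.35
    obtain ⟨k1, k2, k3, k4⟩ := corners0 hθ1 hθ2
    refine reduce hθ2 hvl hv0 hv3 hth hy1 hy2 hq hg hk he0 (le_refl 0) (by norm_num) hw0.le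
      (by norm_num) (Gam_low hv0 hv3) ?_ (Phi_pos k1 k2 k3 k4 hy1 hy2 hp1 hp2)
    have h1 := TT_le (a := 1 / 2) hH0 hH1 hy0 hy2 hw0 hw2 (by norm_num) (fun _ => le_refl _)
      (fun h => by linarith)
    have h2 : (y * 0.35) ^ (1 / 2 : ℝ) ≤ 0.5455 * (1 + 1 / 2 * (y / 0.85 - 1)) := by
      rw [Real.mul_rpow hy0.le (by norm_num)]
      have h3 := rpow_tangent (x := y) (x0 := 0.85) (p := 1 / 2) hy0.le (by norm_num)
        (by norm_num) (by norm_num)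
      calc y ^ (1 / 2 : ℝ) * 0.35 ^ (1 / 2 : ℝ)
          ≤ (0.85 ^ (1 / 2 : ℝ) * (1 + 1 / 2 * (y / 0.85 - 1))) * 0.35 ^ (1 / 2 : ℝ) := by
            apply mul_le_mul_of_nonneg_right h3 (by positivity)
        _ = (0.85 * 0.35) ^ (1 / 2 : ℝ) * (1 + 1 / 2 * (y / 0.85 - 1)) := by
            rw [Real.mul_rpow (by norm_num) (by norm_num)]
            ring
        _ ≤ 0.5455 * (1 + 1 / 2 * (y / 0.85 - 1)) := by
            apply mul_le_mul_of_nonneg_right _ (hyt _ (by norm_num) (by norm_num))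
            exact hpow _ _ 1 2 _ (by norm_num) (by norm_num) (by norm_num) (by norm_num)
              (by norm_num)
    have h4 : HH θ ^ (1 / 0.35 - 1 : ℝ) ≤ 0.7186 * 0.68 * (-0.9590 + 2.8986 * HH θ) := by
      have h5 : HH θ ^ (1 / 0.35 - 1 : ℝ) = HH θ * HH θ ^ (6 / 7 : ℝ) := by
        rw [show (1 / 0.35 - 1 : ℝ) = 1 + 6 / 7 by norm_num, Real.rpow_add hH0, Real.rpow_one]
      rw [h5]
      have h6 := rpow_tangent (x := HH θ) (x0 := 0.68) (p := 6 / 7) hH0.le (by norm_num)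
        (by norm_num) (by norm_num)
      have h7 : (0.68 : ℝ) ^ (6 / 7 : ℝ) ≤ 0.7186 :=
        hpow _ _ 6 7 _ (by norm_num) (by norm_num) (by norm_num) (by norm_num) (by norm_num)
      have h8 := h6.trans (mul_le_mul_of_nonneg_right h7 (hHt (6 / 7) (by norm_num) (by norm_num)))
      refine (mul_le_mul_of_nonneg_left h8 hH0.le).trans ?_
      have h9 : 0.6335 ≤ HH θ := by rw [hH]; linarith
      have h10 : HH θ ≤ 0.8169 := by rw [hH]; linarith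
      exact quadH h9 h10
    refine h1.trans ((mul_le_mul h2 h4 (by positivity) (mul_nonneg (by norm_num)
      (hyt _ (by norm_num) (by norm_num)))).trans ?_)
    rw [hH]
    apply le_of_eq
    ring
  rcases le_or_gt w 0.5 with hw3 | hw3
  · obtain ⟨k1, k2, k3, k4⟩ := corners1 hθ1 hθ2
    refine reduce hθ2 hvl hv0 hv3 hth hy1 hy2 hq hg hk he0 (by norm_num) (by norm_num) hw2.le
      (by norm_num) (Gam_low hv0 hv3) ?_ (Phi_pos k1 k2 k3 k4 hy1 hy2 hp1 hp2)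
    have h1 := TT_lin (a := 1 / 2) (p := 1) (A := 0.652) (P := 0.68) hH0 hH1 hy0 hy2 hw0 hw3
      (by norm_num) (by norm_num) (by norm_num) (fun _ => le_refl _)
      (fun h => by norm_num at hw3; linarith) (by norm_num) (by norm_num) (by norm_num)
      (hpow _ _ 1 2 _ (by norm_num) (by norm_num) (by norm_num) (by norm_num) (by norm_num))
      (by rw [Real.rpow_one]) (hyt _ (by norm_num) (by norm_num))
      (hHt _ (by norm_num) (by norm_num))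
    refine h1.trans (le_of_eq ?_)
    rw [hH]
    ring
  rcases le_or_gt w 0.55 with hw4 | hw4
  · obtain ⟨k1, k2, k3, k4⟩ := corners2 hθ1 hθ2
    refine reduce hθ2 hvl hv0 hv3 hth hy1 hy2 hq hg hk he0 (by norm_num) (by norm_num) hw3.le
      (by norm_num) (Gam_high (r := 0.7071) (κ := 0.0788) hv0 hv3 (by norm_num) (by nlinarith)
        (by norm_num) (by norm_num)) ?_ (Phi_pos k1 k2 k3 k4 hy1 hy2 hp1 hp2)
    have h1 := TT_lin (a := 5 / 11) (p := 9 / 11) (A := 0.7078) (P := 0.7294) hH0 hH1 hy0 hy2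
      hw0 hw4 (by norm_num) (by norm_num) (by norm_num) (fun _ => by norm_num)
      (fun h => by rw [le_div_iff₀ (by positivity)]; linarith) (by norm_num) (by norm_num)
      (by norm_num)
      (hpow _ _ 5 11 _ (by norm_num) (by norm_num) (by norm_num) (by norm_num) (by norm_num))
      (hpow _ _ 9 11 _ (by norm_num) (by norm_num) (by norm_num) (by norm_num) (by norm_num))
      (hyt _ (by norm_num) (by norm_num)) (hHt _ (by norm_num) (by norm_num))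
    refine h1.trans (le_of_eq ?_)
    rw [hH]
    ring
  rcases le_or_gt w 0.6 with hw5 | hw5
  · obtain ⟨k1, k2, k3, k4⟩ := corners3 hθ1 hθ2
    refine reduce hθ2 hvl hv0 hv3 hth hy1 hy2 hq hg hk he0 (by norm_num) (by norm_num) hw4.le
      (by norm_num) (Gam_high (r := 0.7416) (κ := 0.0510) hv0 hv3 (by norm_num) (by nlinarith)
        (by norm_num) (by norm_num)) ?_ (Phi_pos k1 k2 k3 k4 hy1 hy2 hp1 hp2)
    have h1 := TT_lin (a := 5 / 12) (p := 2 / 3) (A := 0.7554) (P := 0.7733) hH0 hH1 hy0 hy2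
      hw0 hw5 (by norm_num) (by norm_num) (by norm_num) (fun _ => by norm_num)
      (fun h => by rw [le_div_iff₀ (by positivity)]; linarith) (by norm_num) (by norm_num)
      (by norm_num)
      (hpow _ _ 5 12 _ (by norm_num) (by norm_num) (by norm_num) (by norm_num) (by norm_num))
      (hpow _ _ 2 3 _ (by norm_num) (by norm_num) (by norm_num) (by norm_num) (by norm_num))
      (hyt _ (by norm_num) (by norm_num)) (hHt _ (by norm_num) (by norm_num))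
    refine h1.trans (le_of_eq ?_)
    rw [hH]
    ring
  rcases le_or_gt w 0.63 with hw6 | hw6
  · obtain ⟨k1, k2, k3, k4⟩ := corners4 hθ1 hθ2
    refine reduce hθ2 hvl hv0 hv3 hth hy1 hy2 hq hg hk he0 (by norm_num) (by norm_num) hw5.le
      (by norm_num) (Gam_high (r := 0.77459) (κ := 0.0267) hv0 hv3 (by norm_num) (by nlinarith)
        (by norm_num) (by norm_num)) ?_ (Phi_pos k1 k2 k3 k4 hy1 hy2 hp1 hp2)
    have h1 := TT_lin (a := 25 / 63) (p := 37 / 63) (A := 0.7805) (P := 0.79735) hH0 hH1 hy0 hy2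
      hw0 hw6 (by norm_num) (by norm_num) (by norm_num) (fun _ => by norm_num)
      (fun h => by rw [le_div_iff₀ (by positivity)]; linarith) (by norm_num) (by norm_num)
      (by norm_num)
      (hpow _ _ 25 63 _ (by norm_num) (by norm_num) (by norm_num) (by norm_num) (by norm_num))
      (hpow _ _ 37 63 _ (by norm_num) (by norm_num) (by norm_num) (by norm_num) (by norm_num))
      (hyt _ (by norm_num) (by norm_num)) (hHt _ (by norm_num) (by norm_num))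
    refine h1.trans (le_of_eq ?_)
    rw [hH]
    ring
  · obtain ⟨k1, k2, k3, k4⟩ := corners5 hθ1 hθ2
    refine reduce hθ2 hvl hv0 hv3 hth hy1 hy2 hq hg hk he0 (by norm_num) (by norm_num) hw6.le
      (by norm_num) (Gam_high (r := 0.79372) (κ := 0.0136) hv0 hv3 (by norm_num) (by nlinarith)
        (by norm_num) (by norm_num)) ?_ (Phi_pos k1 k2 k3 k4 hy1 hy2 hp1 hp2)
    have h1 := TT_lin (a := 5 / 13) (p := 7 / 13) (A := 0.79598) (P := 0.8125) hH0 hH1 hy0 hy2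
      hw0 hw1 (by norm_num) (by norm_num) (by norm_num) (fun _ => by norm_num)
      (fun h => by rw [le_div_iff₀ (by positivity)]; linarith) (by norm_num) (by norm_num)
      (by norm_num)
      (hpow _ _ 5 13 _ (by norm_num) (by norm_num) (by norm_num) (by norm_num) (by norm_num))
      (hpow _ _ 7 13 _ (by norm_num) (by norm_num) (by norm_num) (by norm_num) (by norm_num))
      (hyt _ (by norm_num) (by norm_num)) (hHt _ (by norm_num) (by norm_num))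
    refine h1.trans (le_of_eq ?_)
    rw [hH]
    ring

theorem gIIsc : GIIsc := GIIsc_holds

end Pool.Agent.Helper61.Pq

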